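import Pool.Agent.K1H52.L2.Weak

/-!
# The weak formulation up to time zero
-/

open MeasureTheory Set Filter Topology
open scoped ContDiff ENNReal

namespace Pool.Agent.K1H52.L2

open Pool.Agent.H356R3.NS (AdmissiblePeriodic R3 fc)
open H459R3.NS (V K3 SP Per cube fr ee S Rap IsSol)
open Pool.Agent.K1H11.NS (TestField weakInt pairing fc_eq_fr)

/-- The weights `(1 + |k|²)^{-n}`. -/
noncomputable def om (n : ℕ) (k : K3) : ℝ := ((1 + sk k) ^ n)⁻¹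

lemma om_pos (n : ℕ) (k : K3) : 0 < om n k := by
  unfold om
  have := sk_nonneg k
  positivity

lemma om_summable {a : K3 → Fin 3 → ℂ} {C : ℝ} {M : ℕ} (ha : ∀ k, ‖a k‖ ≤ C * (1 + sk k) ^ M) :
    Summable fun k => om (M + 3) k * ‖a k‖ := by
  refine Summable.of_nonneg_of_le (fun k => mul_nonneg (om_pos _ k).le (norm_nonneg _)) (fun k => ?_)
    (H459R3.NS.summable_K3.mul_left |C|)
  have hs := sk_nonneg k
  have h1 : 0 < (1 + sk k) ^ M := by positivity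
  have h3 : (1 + (k 0 : ℝ) ^ 2) * ((1 + (k 1 : ℝ) ^ 2) * (1 + (k 2 : ℝ) ^ 2)) ≤ (1 + sk k) ^ 3 := by
    have e : sk k = (k 0 : ℝ) ^ 2 + (k 1 : ℝ) ^ 2 + (k 2 : ℝ) ^ 2 := by
      unfold sk; rw [Fin.sum_univ_three]
    have a0 := sq_nonneg (k 0 : ℝ)
    have a1 := sq_nonneg (k 1 : ℝ)
    have a2 := sq_nonneg (k 2 : ℝ)
    rw [e]
    calc _ ≤ (1 + ((k 0 : ℝ) ^ 2 + (k 1 : ℝ) ^ 2 + (k 2 : ℝ) ^ 2)) *
          ((1 + ((k 0 : ℝ) ^ 2 + (k 1 : ℝ) ^ 2 + (k 2 : ℝ) ^ 2)) *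
          (1 + ((k 0 : ℝ) ^ 2 + (k 1 : ℝ) ^ 2 + (k 2 : ℝ) ^ 2))) := by
          gcongr <;> linarith
      _ = _ := by ring
  have hP : (0 : ℝ) < (1 + (k 0 : ℝ) ^ 2) * ((1 + (k 1 : ℝ) ^ 2) * (1 + (k 2 : ℝ) ^ 2)) := by positivity
  have e2 : (1 / (1 + (k 0 : ℝ) ^ 2)) * ((1 / (1 + (k 1 : ℝ) ^ 2)) * (1 / (1 + (k 2 : ℝ) ^ 2)))
      = ((1 + (k 0 : ℝ) ^ 2) * ((1 + (k 1 : ℝ) ^ 2) * (1 + (k 2 : ℝ) ^ 2)))⁻¹ := by
    field_simp
  rw [e2]
  calc om (M + 3) k * ‖a k‖ ≤ om (M + 3) k * (|C| * (1 + sk k) ^ M) := by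
        refine mul_le_mul_of_nonneg_left ((ha k).trans ?_) (om_pos _ k).le
        exact mul_le_mul_of_nonneg_right (le_abs_self C) h1.le
    _ = |C| * ((1 + sk k) ^ 3)⁻¹ := by
        unfold om
        rw [pow_add]
        field_simp
    _ ≤ _ := by
        refine mul_le_mul_of_nonneg_left ?_ (abs_nonneg C)
        exact inv_anti₀ hP h3

section pair

variable {φ : ℝ → R3 → R3} (hφ : TestField φ)

include hφ in
lemma fc_bound (L : ℕ) : ∃ C : ℝ, 0 ≤ C ∧ ∀ t ∈ Icc (0 : ℝ) 1, ∀ k i, ‖fc (φ t) k i‖ ≤ C * om L k := by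
  choose C hC0 hC using fun i => unif_bound L 1 (f := fun t x => φ t x i) (tf_comp hφ i)
    (fun t => (tf_sp hφ t i).per)
  refine ⟨∑ i, C i, Finset.sum_nonneg fun i _ => hC0 i, fun t ht k i => ?_⟩
  have hs := sk_nonneg k
  have h1 : 0 < (1 + sk k) ^ L := by positivity
  rw [fc_eq_fr]
  unfold om
  rw [← div_eq_mul_inv, le_div_iff₀ h1, mul_comm]
  exact (hC i t ht k).trans (Finset.single_le_sum (f := C) (fun j _ => hC0 j) (Finset.mem_univ i))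

lemma norm_pair_le {b c : Fin 3 → ℂ} {D : ℝ} (hc : ∀ i, ‖c i‖ ≤ D) : ‖∑ i, b i * star (c i)‖ ≤ 3 * D * ‖b‖ := by
  have hD : 0 ≤ D := (norm_nonneg _).trans (hc 0)
  refine (norm_sum_le _ _).trans ((Finset.sum_le_sum (g := fun _ => D * ‖b‖) fun i _ => ?_).trans ?_)
  · rw [norm_mul, norm_star, mul_comm]
    exact mul_le_mul (hc i) (norm_le_pi_norm b i) (norm_nonneg _) hD
  · rw [Finset.sum_const, Finset.card_univ, Fintype.card_fin]
    simp only [nsmul_eq_mul]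
    push_cast
    linarith

include hφ in
lemma pair_formula {U : ℝ → R3 → R3} {t : ℝ} (hsp : ∀ i, SP fun x => U t x i) :
    HasSum (fun k => ∑ i, fc (U t) k i * star (fc (φ t) k i)) ((∫ x in cube, ∑ i, U t x i * φ t x i : ℝ) : ℂ) := by
  have h1 : ∀ i, HasSum (fun k => fc (U t) k i * star (fc (φ t) k i)) ((∫ x in cube, U t x i * φ t x i : ℝ) : ℂ) := by
    intro i
    have := parseval (hsp i) (tf_sp hφ t i)
    simpa only [fc_eq_fr] using this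
  have h2 := hasSum_sum (s := Finset.univ) fun i _ => h1 i
  rw [integral_finsetSum _ fun i _ => ((hsp i).mul (tf_sp hφ t i)).int]
  push_cast
  exact h2

include hφ in
/-- Convergence of the pairing at time zero. -/
theorem pair_tendsto {U : ℝ → R3 → R3} {a : K3 → Fin 3 → ℂ} {C : ℝ} {M : ℕ}
    (hsp : ∀ t, 0 < t → ∀ i, SP fun x => U t x i) (ha : ∀ k, ‖a k‖ ≤ C * (1 + sk k) ^ M)
    (hlim : Tendsto (fun t : ℝ => ∑' k, ENNReal.ofReal (om (M + 3) k) * ‖fc (U t) k - a k‖ₑ) (𝓝[>] 0) (𝓝 0)) :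
    Tendsto (fun t => ∫ x in cube, ∑ i, U t x i * φ t x i) (𝓝[>] 0) (𝓝 (pairing a (φ 0))) := by
  obtain ⟨D, hD0, hD⟩ := fc_bound hφ (M + 3)
  have hsum := om_summable ha
  have h01 : Ioc (0 : ℝ) 1 ∈ 𝓝[>] (0 : ℝ) := Ioc_mem_nhdsGT one_pos
  -- the part with `a`
  have hQ : Tendsto (fun t => ∑' k, ∑ i, a k i * star (fc (φ t) k i)) (𝓝[>] 0)
      (𝓝 (∑' k, ∑ i, a k i * star (fc (φ 0) k i))) := by
    refine tendsto_tsum_of_dominated_convergence (hsum.mul_left (3 * D)) (fun k => ?_) ?_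
    · refine tendsto_finsetSum _ fun i _ => Tendsto.const_mul _ ?_
      have hc : Continuous fun t => fc (φ t) k i := by
        simp_rw [fc_eq_fr]
        exact fr_cont (f := fun t x => φ t x i) (tf_comp hφ i).continuous k
      exact ((continuous_star.comp hc).tendsto 0).mono_left nhdsWithin_le_nhds
    · filter_upwards [h01] with t ht k
      refine (norm_pair_le fun i => hD t ⟨ht.1.le, ht.2⟩ k i).trans (le_of_eq ?_)
      ring
  -- the remainder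
  have hR : Tendsto (fun t => ∑' k, ∑ i, (fc (U t) k - a k) i * star (fc (φ t) k i)) (𝓝[>] 0) (𝓝 0) := by
    rw [tendsto_zero_iff_norm_tendsto_zero]
    have hfin : ∀ᶠ t in 𝓝[>] (0 : ℝ), ∑' k, ENNReal.ofReal (om (M + 3) k) * ‖fc (U t) k - a k‖ₑ < 1 :=
      hlim.eventually (gt_mem_nhds one_pos)
    have hg : Tendsto (fun t => 3 * D * (∑' k, ENNReal.ofReal (om (M + 3) k) * ‖fc (U t) k - a k‖ₑ).toReal)
        (𝓝[>] 0) (𝓝 0) := by
      have := ((ENNReal.tendsto_toReal ENNReal.zero_ne_top).comp hlim).const_mul (3 * D)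
      simpa using this
    refine squeeze_zero' (Filter.Eventually.of_forall fun t => norm_nonneg _) ?_ hg
    filter_upwards [h01, hfin] with t ht hf
    have hne : ∑' k, ENNReal.ofReal (om (M + 3) k) * ‖fc (U t) k - a k‖ₑ ≠ ⊤ := (hf.trans ENNReal.one_lt_top).ne
    have e1 : ∀ k, (ENNReal.ofReal (om (M + 3) k) * ‖fc (U t) k - a k‖ₑ).toReal
        = om (M + 3) k * ‖fc (U t) k - a k‖ := by
      intro k
      rw [ENNReal.toReal_mul, ENNReal.toReal_ofReal (om_pos _ k).le, toReal_enorm]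
    have s1 : Summable fun k => om (M + 3) k * ‖fc (U t) k - a k‖ := by
      have := ENNReal.summable_toReal hne
      simpa only [e1] using this
    have s2 : ∑' k, om (M + 3) k * ‖fc (U t) k - a k‖
        = (∑' k, ENNReal.ofReal (om (M + 3) k) * ‖fc (U t) k - a k‖ₑ).toReal := by
      rw [ENNReal.tsum_toReal_eq (ENNReal.ne_top_of_tsum_ne_top hne)]
      exact tsum_congr fun k => (e1 k).symm
    rw [← s2, ← tsum_mul_left]
    refine tsum_of_norm_bounded (s1.mul_left (3 * D)).hasSum fun k => ?_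
    refine (norm_pair_le fun i => hD t ⟨ht.1.le, ht.2⟩ k i).trans (le_of_eq ?_)
    ring
  have hP := hQ.add hR
  rw [add_zero] at hP
  have hre := (Complex.continuous_re.tendsto _).comp hP
  unfold pairing
  refine hre.congr' ?_
  filter_upwards [h01] with t ht
  have hs := pair_formula hφ (hsp t ht.1)
  have sA : Summable fun k => ∑ i, a k i * star (fc (φ t) k i) := by
    refine Summable.of_norm_bounded (hsum.mul_left (3 * D)) fun k => ?_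
    refine (norm_pair_le fun i => hD t ⟨ht.1.le, ht.2⟩ k i).trans (le_of_eq ?_)
    ring
  have e : ∀ k, ∑ i, (fc (U t) k - a k) i * star (fc (φ t) k i)
      = ∑ i, fc (U t) k i * star (fc (φ t) k i) - ∑ i, a k i * star (fc (φ t) k i) := by
    intro k
    rw [← Finset.sum_sub_distrib]
    refine Finset.sum_congr rfl fun i _ => ?_
    rw [Pi.sub_apply]
    ring
  simp only [Function.comp_apply]
  simp_rw [e]
  rw [hs.summable.tsum_sub sA, hs.tsum_eq, add_sub_cancel, Complex.ofReal_re]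

end pair

section main

variable {ν : ℝ} {U : ℝ → R3 → R3}

lemma sq_int_of_lintegral (hU : ContinuousOn (fun z : ℝ × R3 => U z.1 z.2) (Ioi 0 ×ˢ univ))
    (h2 : ∀ T : ℝ, ∫⁻ t in Ioc 0 T, ∫⁻ x in Icc (0 : R3) 1, ‖U t x‖ₑ ^ 2 ≠ ⊤) (T : ℝ) :
    IntegrableOn (fun z : ℝ × R3 => ∑ i, U z.1 z.2 i ^ 2) (Ioc 0 T ×ˢ Icc 0 1) := by
  have hm1 : MeasurableSet (Ioc (0 : ℝ) T ×ˢ (Icc 0 1 : Set R3)) := measurableSet_Ioc.prod measurableSet_Icc
  have hsub : Ioc (0 : ℝ) T ×ˢ (Icc 0 1 : Set R3) ⊆ Ioi 0 ×ˢ univ := prod_mono Ioc_subset_Ioi_self (subset_univ _)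
  have hUm : AEStronglyMeasurable (fun z : ℝ × R3 => U z.1 z.2) (volume.restrict (Ioc (0 : ℝ) T ×ˢ Icc 0 1)) :=
    (hU.mono hsub).aestronglyMeasurable hm1
  have hc : ContinuousOn (fun z : ℝ × R3 => ∑ i, U z.1 z.2 i ^ 2) (Ioi 0 ×ˢ univ) :=
    continuousOn_finsetSum _ fun i _ => ((continuousOn_pi.1 hU) i).pow 2
  refine ⟨(hc.mono hsub).aestronglyMeasurable hm1, ?_⟩
  have e1 : (volume : Measure (ℝ × R3)).restrict (Ioc (0 : ℝ) T ×ˢ Icc 0 1)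
      = (volume.restrict (Ioc (0 : ℝ) T)).prod (volume.restrict (Icc (0 : R3) 1)) := by
    rw [Measure.prod_restrict]; rfl
  have h3 : ∫⁻ z in Ioc (0 : ℝ) T ×ˢ (Icc 0 1 : Set R3), ‖U z.1 z.2‖ₑ ^ 2
      = ∫⁻ t in Ioc 0 T, ∫⁻ x in Icc (0 : R3) 1, ‖U t x‖ₑ ^ 2 := by
    rw [e1] at hUm ⊢
    exact lintegral_prod _ (hUm.enorm.pow_const 2)
  unfold HasFiniteIntegral
  have h4 : ∫⁻ z in Ioc (0 : ℝ) T ×ˢ (Icc 0 1 : Set R3), ‖∑ i, U z.1 z.2 i ^ 2‖ₑ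
      ≤ ∫⁻ z in Ioc (0 : ℝ) T ×ˢ (Icc 0 1 : Set R3), 3 * ‖U z.1 z.2‖ₑ ^ 2 := by
    refine lintegral_mono fun z => ?_
    refine (enorm_sum_le _ _).trans ((Finset.sum_le_sum (g := fun _ => ‖U z.1 z.2‖ₑ ^ 2) fun i _ => ?_).trans ?_)
    · rw [enorm_pow]
      exact pow_le_pow_left' (ENNReal.coe_le_coe.2 (nnnorm_le_pi_nnnorm (U z.1 z.2) i)) 2
    · rw [Finset.sum_const, Finset.card_univ, Fintype.card_fin, nsmul_eq_mul]
      push_cast
      exact le_rfl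
  refine h4.trans_lt ?_
  rw [lintegral_const_mul' _ _ (by norm_num), h3]
  exact ENNReal.mul_lt_top (by norm_num) (lt_top_iff_ne_top.2 (h2 T))

/-- **The weak formulation up to time zero.** -/
theorem weak_form {a : K3 → Fin 3 → ℂ} {C : ℝ} {M : ℕ}
    (hU : ∀ t₀ : ℝ, 0 < t₀ → ∃ p : ℝ → R3 → ℝ, AdmissiblePeriodic ν (U t₀) (fun t => U (t₀ + t)) p)
    (h2 : ∀ T : ℝ, ∫⁻ t in Ioc 0 T, ∫⁻ x in Icc (0 : R3) 1, ‖U t x‖ₑ ^ 2 ≠ ⊤)
    (ha : ∀ k, ‖a k‖ ≤ C * (1 + sk k) ^ M)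
    (hlim : Tendsto (fun t : ℝ => ∑' k, ENNReal.ofReal (om (M + 3) k) * ‖fc (U t) k - a k‖ₑ) (𝓝[>] 0) (𝓝 0))
    {φ : ℝ → R3 → R3} (hφ : TestField φ) :
    IntegrableOn (fun z : ℝ × R3 => weakInt ν U φ z.1 z.2) (Ioi 0 ×ˢ Icc 0 1) ∧
    (∫ z in Ioi (0 : ℝ) ×ˢ Icc (0 : R3) 1, weakInt ν U φ z.1 z.2) + pairing a (φ 0) = 0 := by
  have hUc := U_cont hU
  have hint := weakInt_integrable hφ hUc (sq_int_of_lintegral hUc h2) ν
  refine ⟨hint, ?_⟩
  have hsp : ∀ t, 0 < t → ∀ i, SP fun x => U t x i := by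
    intro t ht i
    obtain ⟨p, hp⟩ := hU t ht
    have := (K1H11.NS.adm_isSol hp 1).sp (t := 0) ⟨le_rfl, one_pos⟩ i
    rwa [add_zero] at this
  have hpair := pair_tendsto hφ hsp ha hlim
  have e1 : (volume : Measure (ℝ × R3)) = (volume : Measure ℝ).prod (volume : Measure R3) := rfl
  -- the integral over times after `t₀`
  have key : ∀ t₀ : ℝ, 0 < t₀ → ∫ z in Ioi t₀ ×ˢ Icc (0 : R3) 1, weakInt ν U φ z.1 z.2
      = -∫ x in cube, ∑ i, U t₀ x i * φ t₀ x i := by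
    intro t₀ ht₀
    have hi : IntegrableOn (fun z : ℝ × R3 => weakInt ν U φ z.1 z.2) (Ioi t₀ ×ˢ Icc 0 1) :=
      hint.mono_set (prod_mono (Ioi_subset_Ioi ht₀.le) subset_rfl)
    have hi2 : IntegrableOn (fun t => ∫ x in cube, weakInt ν U φ t x) (Ioi t₀) := by
      have h3 : Integrable (fun z : ℝ × R3 => weakInt ν U φ z.1 z.2)
          ((volume.restrict (Ioi t₀)).prod (volume.restrict (Icc (0 : R3) 1))) := by
        rw [Measure.prod_restrict]; exact hi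
      exact h3.integral_prod_left
    rw [e1, setIntegral_prod _ (by rw [← e1]; exact hi)]
    obtain ⟨T, hT⟩ := hφ.support
    have hlimG : Tendsto (fun t => ∫ x in cube, ∑ i, U t x i * φ t x i) atTop (𝓝 0) := by
      refine tendsto_const_nhds.congr' ?_
      filter_upwards [eventually_ge_atTop T] with t ht
      have : ∀ x, ∑ i, U t x i * φ t x i = 0 := by
        intro x
        refine Finset.sum_eq_zero fun i _ => ?_
        rw [hT t ht x, Pi.zero_apply, mul_zero]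
      simp_rw [this]
      simp
    have hd : ∀ t, 0 < t → HasDerivAt (fun t => ∫ x in cube, ∑ i, U t x i * φ t x i)
        (∫ x in cube, weakInt ν U φ t x) t := fun t ht => G_deriv hφ hU ht
    have h4 := integral_Ioi_of_hasDerivAt_of_tendsto (hd t₀ ht₀).continuousAt.continuousWithinAt
      (fun t ht => hd t (ht₀.trans ht)) hi2 hlimG
    rw [zero_sub] at h4
    exact h4
  -- the limit
  set s : ℕ → Set (ℝ × R3) := fun n => Ioi (1 / ((n : ℝ) + 1)) ×ˢ Icc (0 : R3) 1 with hs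
  have hsU : ⋃ n, s n = Ioi (0 : ℝ) ×ˢ Icc (0 : R3) 1 := by
    ext z
    simp only [hs, mem_iUnion, mem_prod, mem_Ioi]
    constructor
    · rintro ⟨n, h1, h2⟩
      exact ⟨lt_trans (by positivity) h1, h2⟩
    · rintro ⟨h1, h2⟩
      obtain ⟨n, hn⟩ := exists_nat_one_div_lt h1
      exact ⟨n, hn, h2⟩
  have hmono : Monotone s := by
    intro m n hmn
    refine prod_mono (Ioi_subset_Ioi ?_) subset_rfl
    have : (m : ℝ) ≤ n := by exact_mod_cast hmn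
    exact one_div_le_one_div_of_le (by positivity) (by linarith)
  have hL := tendsto_setIntegral_of_monotone (f := fun z : ℝ × R3 => weakInt ν U φ z.1 z.2) (μ := volume) (s := s)
    (fun n => measurableSet_Ioi.prod measurableSet_Icc) hmono (by rw [hsU]; exact hint)
  rw [hsU] at hL
  have hseq : Tendsto (fun n : ℕ => 1 / ((n : ℝ) + 1)) atTop (𝓝[>] (0 : ℝ)) := by
    refine tendsto_nhdsWithin_iff.2 ⟨tendsto_one_div_add_atTop_nhds_zero_nat, Filter.Eventually.of_forall fun n => ?_⟩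
    show (0 : ℝ) < 1 / ((n : ℝ) + 1)
    positivity
  have hR := (hpair.comp hseq).neg
  have hL' : Tendsto (fun n : ℕ => -∫ x in cube, ∑ i, U (1 / ((n : ℝ) + 1)) x i * φ (1 / ((n : ℝ) + 1)) x i) atTop
      (𝓝 (∫ z in Ioi (0 : ℝ) ×ˢ Icc (0 : R3) 1, weakInt ν U φ z.1 z.2)) := by
    refine hL.congr fun n => ?_
    exact key _ (by positivity)
  have := tendsto_nhds_unique hL' hR
  rw [this]
  ring

lemma om_le {n : ℕ} (hn : n ≠ 0) {k : K3} (hk : k ≠ 0) : om n k ≤ 1 / ∑ i, (k i : ℝ) ^ 2 := by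
  have hs := sk_nonneg k
  have hpos : 0 < ∑ i, (k i : ℝ) ^ 2 := by
    obtain ⟨j, hj⟩ := Function.ne_iff.1 hk
    have h1 : (k j : ℝ) ≠ 0 := by exact_mod_cast hj
    have h2 : 0 < (k j : ℝ) ^ 2 := by positivity
    exact h2.trans_le (Finset.single_le_sum (f := fun i => (k i : ℝ) ^ 2) (fun i _ => sq_nonneg _)
      (Finset.mem_univ j))
  unfold om
  rw [one_div]
  refine inv_anti₀ hpos ?_
  calc ∑ i, (k i : ℝ) ^ 2 ≤ 1 + sk k := by unfold sk; linarith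
    _ ≤ (1 + sk k) ^ n := le_self_pow₀ (by linarith) hn

/-- The coefficients of a field in `H⁻¹` grow at most linearly. -/
lemma growth_of_NH {a : K3 → Fin 3 → ℂ}
    (ha : (∑' k, if k = 0 then 0 else ‖a k‖ₑ ^ 2 / ENNReal.ofReal (∑ i, (k i : ℝ) ^ 2)) ≠ ⊤) :
    ∃ C : ℝ, ∀ k, ‖a k‖ ≤ C * (1 + sk k) ^ 1 := by
  set B := (∑' k, if k = 0 then 0 else ‖a k‖ₑ ^ 2 / ENNReal.ofReal (∑ i, (k i : ℝ) ^ 2)).toReal with hB
  refine ⟨Real.sqrt B + ‖a 0‖, fun k => ?_⟩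
  have hs := sk_nonneg k
  have hB0 := Real.sqrt_nonneg B
  have ha0 := norm_nonneg (a 0)
  rw [pow_one]
  by_cases hk : k = 0
  · subst hk
    nlinarith
  · have hpos : 0 < ∑ i, (k i : ℝ) ^ 2 := by
      obtain ⟨j, hj⟩ := Function.ne_iff.1 hk
      have h1 : (k j : ℝ) ≠ 0 := by exact_mod_cast hj
      have h2 : 0 < (k j : ℝ) ^ 2 := by positivity
      exact h2.trans_le (Finset.single_le_sum (f := fun i => (k i : ℝ) ^ 2) (fun i _ => sq_nonneg _)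
        (Finset.mem_univ j))
    have h1 := ENNReal.le_tsum (f := fun k : K3 => if k = 0 then (0 : ℝ≥0∞) else
      ‖a k‖ₑ ^ 2 / ENNReal.ofReal (∑ i, (k i : ℝ) ^ 2)) k
    rw [if_neg hk] at h1
    have h2 := ENNReal.toReal_mono ha h1
    rw [ENNReal.toReal_div, ENNReal.toReal_pow, toReal_enorm, ENNReal.toReal_ofReal hpos.le, ← hB,
      div_le_iff₀ hpos] at h2
    have hB1 : 0 ≤ B := ENNReal.toReal_nonneg
    have h3 : ‖a k‖ ^ 2 ≤ (Real.sqrt B * (1 + sk k)) ^ 2 := by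
      rw [mul_pow, Real.sq_sqrt hB1]
      refine h2.trans (mul_le_mul_of_nonneg_left ?_ hB1)
      have : ∑ i, (k i : ℝ) ^ 2 = sk k := rfl
      rw [this]
      nlinarith
    have h4 := abs_le_of_sq_le_sq h3 (by positivity)
    have h5 : ‖a k‖ ≤ Real.sqrt B * (1 + sk k) := (abs_le.1 h4).2
    nlinarith

/-- The weak formulation for initial values in `H⁻¹`. -/
theorem weak_form_H {a : K3 → Fin 3 → ℂ}
    (hU : ∀ t₀ : ℝ, 0 < t₀ → ∃ p : ℝ → R3 → ℝ, AdmissiblePeriodic ν (U t₀) (fun t => U (t₀ + t)) p)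
    (h2 : ∀ T : ℝ, ∫⁻ t in Ioc 0 T, ∫⁻ x in Icc (0 : R3) 1, ‖U t x‖ₑ ^ 2 ≠ ⊤)
    (ha : (∑' k, if k = 0 then 0 else ‖a k‖ₑ ^ 2 / ENNReal.ofReal (∑ i, (k i : ℝ) ^ 2)) ≠ ⊤)
    (hwt : ∀ wt : (Fin 3 → ℤ) → ℝ≥0∞, (∀ k, k ≠ 0 → wt k ≤ ENNReal.ofReal (1 / ∑ i, (k i : ℝ) ^ 2)) →
        ∑' k, wt k * ‖a k‖ₑ ≠ ⊤ →
        Tendsto (fun t : ℝ => ∑' k, wt k * ‖fc (U t) k - a k‖ₑ) (𝓝[>] 0) (𝓝 0)) :
    ∀ φ : ℝ → R3 → R3, TestField φ →
      IntegrableOn (fun z : ℝ × R3 => weakInt ν U φ z.1 z.2) (Ioi 0 ×ˢ Icc 0 1) ∧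
      (∫ z in Ioi (0 : ℝ) ×ˢ Icc (0 : R3) 1, weakInt ν U φ z.1 z.2) + pairing a (φ 0) = 0 := by
  obtain ⟨C, hC⟩ := growth_of_NH ha
  intro φ hφ
  refine weak_form (M := 1) hU h2 hC (hwt _ (fun k hk => ENNReal.ofReal_le_ofReal (om_le (by norm_num) hk)) ?_) hφ
  have hs := om_summable hC
  have e : ∀ k, ENNReal.ofReal (om (1 + 3) k) * ‖a k‖ₑ = ENNReal.ofReal (om (1 + 3) k * ‖a k‖) := by
    intro k
    rw [ENNReal.ofReal_mul (om_pos _ k).le, ofReal_norm]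
  simp_rw [e]
  rw [← ENNReal.ofReal_tsum_of_nonneg (fun k => mul_nonneg (om_pos _ k).le (norm_nonneg _)) hs]
  exact ENNReal.ofReal_ne_top

/-- The weak formulation for initial values which are distributions. -/
theorem weak_form_D {a : K3 → Fin 3 → ℂ} {C : ℝ} {M : ℕ} (ha : ∀ k, ‖a k‖ ≤ C * (1 + sk k) ^ M)
    (hU : ∀ t₀ : ℝ, 0 < t₀ → ∃ p : ℝ → R3 → ℝ, AdmissiblePeriodic ν (U t₀) (fun t => U (t₀ + t)) p)
    (h2 : ∀ T : ℝ, ∫⁻ t in Ioc 0 T, ∫⁻ x in Icc (0 : R3) 1, ‖U t x‖ₑ ^ 2 ≠ ⊤)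
    (hwt : ∀ wt : (Fin 3 → ℤ) → ℝ≥0∞, (∀ k, k ≠ 0 → wt k ≤ ENNReal.ofReal (1 / ∑ i, (k i : ℝ) ^ 2)) →
        ∑' k, wt k * ‖a k‖ₑ ≠ ⊤ →
        Tendsto (fun t : ℝ => ∑' k, wt k * ‖fc (U t) k - a k‖ₑ) (𝓝[>] 0) (𝓝 0)) :
    ∀ φ : ℝ → R3 → R3, TestField φ →
      IntegrableOn (fun z : ℝ × R3 => weakInt ν U φ z.1 z.2) (Ioi 0 ×ˢ Icc 0 1) ∧
      (∫ z in Ioi (0 : ℝ) ×ˢ Icc (0 : R3) 1, weakInt ν U φ z.1 z.2) + pairing a (φ 0) = 0 := by
  intro φ hφ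
  refine weak_form (M := M) hU h2 ha (hwt _ (fun k hk => ENNReal.ofReal_le_ofReal (om_le (by omega) hk)) ?_) hφ
  have hs := om_summable ha
  have e : ∀ k, ENNReal.ofReal (om (M + 3) k) * ‖a k‖ₑ = ENNReal.ofReal (om (M + 3) k * ‖a k‖) := by
    intro k
    rw [ENNReal.ofReal_mul (om_pos _ k).le, ofReal_norm]
  simp_rw [e]
  rw [← ENNReal.ofReal_tsum_of_nonneg (fun k => mul_nonneg (om_pos _ k).le (norm_nonneg _)) hs]
  exact ENNReal.ofReal_ne_top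

end main

end Pool.Agent.K1H52.L2

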