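import Pool.Agent.K1H11.NS2.Stage1

/-!
# Amplitudes which follow the size of the stress
-/

open MeasureTheory Set Filter Topology
open scoped ENNReal NNReal ContDiff

namespace Pool.Agent.K1H52.L2

open Pool.Agent.K1H11.NS
open H459R3.NS (ee fc fr cube S SP Per pd D Rap)

/-- the size of the stress, made smooth and positive -/
noncomputable def KK (ε : ℝ) (R : Fin 3 → Fin 3 → E3 → ℝ) (x : E3) : ℝ :=
  Real.sqrt (ε ^ 2 + ∑ i, ∑ j, R i j x ^ 2)

lemma sumsq_pos {ε : ℝ} (hε : 0 < ε) (R : Fin 3 → Fin 3 → E3 → ℝ) (x : E3) :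
    0 < ε ^ 2 + ∑ i, ∑ j, R i j x ^ 2 := by
  have : 0 ≤ ∑ i, ∑ j, R i j x ^ 2 := Finset.sum_nonneg fun _ _ => Finset.sum_nonneg fun _ _ =>
    sq_nonneg _
  positivity

lemma KK_pos {ε : ℝ} (hε : 0 < ε) (R : Fin 3 → Fin 3 → E3 → ℝ) (x : E3) : 0 < KK ε R x :=
  Real.sqrt_pos.2 (sumsq_pos hε R x)

lemma KK_SP {ε : ℝ} (hε : 0 < ε) {R : Fin 3 → Fin 3 → E3 → ℝ} (hR : ∀ i j, SP (R i j)) :
    SP (KK ε R) where
  smooth := by
    unfold KK
    apply ContDiff.sqrt _ (fun x => (sumsq_pos hε R x).ne')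
    apply contDiff_const.add
    exact ContDiff.sum fun i _ => ContDiff.sum fun j _ => (hR i j).smooth.pow 2
  per := fun i x => by
    unfold KK
    simp only [(hR _ _).per i x]

lemma le_KK {ε : ℝ} (R : Fin 3 → Fin 3 → E3 → ℝ) (i j : Fin 3) (x : E3) :
    |R i j x| ≤ KK ε R x := by
  apply Real.le_sqrt_of_sq_le
  rw [sq_abs]
  have h1 : R i j x ^ 2 ≤ ∑ j, R i j x ^ 2 :=
    Finset.single_le_sum (f := fun j => R i j x ^ 2) (fun _ _ => sq_nonneg _) (Finset.mem_univ j)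
  have h2 : ∑ j, R i j x ^ 2 ≤ ∑ i, ∑ j, R i j x ^ 2 :=
    Finset.single_le_sum (f := fun i => ∑ j, R i j x ^ 2)
      (fun _ _ => Finset.sum_nonneg fun _ _ => sq_nonneg _) (Finset.mem_univ i)
  nlinarith [sq_nonneg ε]

lemma KK_le {ε : ℝ} (hε : 0 < ε) (R : Fin 3 → Fin 3 → E3 → ℝ) (x : E3) :
    KK ε R x ≤ ε + ∑ i, ∑ j, |R i j x| := by
  have h0 : 0 ≤ ∑ i, ∑ j, |R i j x| :=
    Finset.sum_nonneg fun _ _ => Finset.sum_nonneg fun _ _ => abs_nonneg _
  unfold KK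
  rw [Real.sqrt_le_left (by positivity)]
  have h1 : ∑ i, ∑ j, R i j x ^ 2 ≤ (∑ i, ∑ j, |R i j x|) ^ 2 := by
    rw [← Fintype.sum_prod_type' (f := fun i j => R i j x ^ 2),
      ← Fintype.sum_prod_type' (f := fun i j => |R i j x|)]
    have := Finset.sum_sq_le_sq_sum_of_nonneg (s := (Finset.univ : Finset (Fin 3 × Fin 3)))
      (f := fun p => |R p.1 p.2 x|) (fun _ _ => abs_nonneg _)
    simpa only [sq_abs] using this
  nlinarith

lemma sqrtKK_SP {ε : ℝ} (hε : 0 < ε) {R : Fin 3 → Fin 3 → E3 → ℝ} (hR : ∀ i j, SP (R i j)) :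
    SP (fun x => Real.sqrt (KK ε R x)) where
  smooth := (KK_SP hε hR).smooth.sqrt fun x => (KK_pos hε R x).ne'
  per := fun i x => by simp only [(KK_SP hε hR).per i x]

lemma inv_SP {ε : ℝ} (hε : 0 < ε) {R : Fin 3 → Fin 3 → E3 → ℝ} (hR : ∀ i j, SP (R i j)) :
    SP (fun x => (4 * KK ε R x)⁻¹) where
  smooth := (contDiff_const.mul (KK_SP hε hR).smooth).inv fun x =>
    (mul_pos (by norm_num) (KK_pos hε R x)).ne'
  per := fun i x => by simp only [(KK_SP hε hR).per i x]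

/-- the amplitudes -/
noncomputable def FL (ε : ℝ) (R : Fin 3 → Fin 3 → E3 → ℝ) (c : Fin 3) (a : Fin 5) (x : E3) : ℝ :=
  GP (Real.sqrt (KK ε R x)) (fun i j x => R i j x * (4 * KK ε R x)⁻¹)
    (fun i x => R i i x * (4 * KK ε R x)⁻¹ +
      (-(1 / 2)) * ((R i (i + 1) x * (4 * KK ε R x)⁻¹) * (R i (i + 1) x * (4 * KK ε R x)⁻¹) +
        (R i (i + 2) x * (4 * KK ε R x)⁻¹) * (R i (i + 2) x * (4 * KK ε R x)⁻¹))) c a x

lemma FL_SP {ε : ℝ} (hε : 0 < ε) {R : Fin 3 → Fin 3 → E3 → ℝ} (hR : ∀ i j, SP (R i j))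
    (c : Fin 3) (a : Fin 5) : SP (FL ε R c a) := by
  have hκ := sqrtKK_SP hε hR
  have hs : ∀ i j, SP (fun x => R i j x * (4 * KK ε R x)⁻¹) := fun i j => (hR i j).mul (inv_SP hε hR)
  have hX : ∀ i, SP (fun x => R i i x * (4 * KK ε R x)⁻¹ +
      (-(1 / 2)) * ((R i (i + 1) x * (4 * KK ε R x)⁻¹) * (R i (i + 1) x * (4 * KK ε R x)⁻¹) +
        (R i (i + 2) x * (4 * KK ε R x)⁻¹) * (R i (i + 2) x * (4 * KK ε R x)⁻¹))) := fun i =>
    (hs i i).add (SP.cmul (((hs _ _).mul (hs _ _)).add ((hs _ _).mul (hs _ _))) _)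
  have h1 : ∀ f : E3 → ℝ, SP f → SP fun x => Real.sqrt (KK ε R x) * (1 + f x) := fun f hf =>
    hκ.mul ((SP.const 1).add hf)
  have h2 : ∀ f : E3 → ℝ, SP f → SP fun x => Real.sqrt (KK ε R x) * (1 + (-1) * f x) := fun f hf =>
    h1 _ (SP.cmul hf (-1))
  unfold FL GP
  split_ifs
  · exact h1 _ (hs _ _)
  · exact h2 _ (hs _ _)
  · exact h1 _ (hX _)
  · exact h2 _ (hX _)
  · exact h2 _ (hX _)

lemma s_le {ε : ℝ} (hε : 0 < ε) (R : Fin 3 → Fin 3 → E3 → ℝ) (i j : Fin 3) (x : E3) :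
    |R i j x * (4 * KK ε R x)⁻¹| ≤ 1 / 4 := by
  have h1 := KK_pos hε R x
  rw [abs_mul, abs_of_pos (inv_pos.2 (mul_pos (by norm_num) h1)), ← div_eq_mul_inv,
    div_le_iff₀ (by positivity)]
  have := le_KK (ε := ε) R i j x
  linarith

lemma X_le {s0 s1 s2 : ℝ} (h0 : |s0| ≤ 1 / 4) (h1 : |s1| ≤ 1 / 4) (h2 : |s2| ≤ 1 / 4) :
    |s0 + (-(1 / 2)) * (s1 * s1 + s2 * s2)| ≤ 1 := by
  have a1 : s1 * s1 ≤ 1 / 16 := by
    have := abs_le.1 h1
    nlinarith [this.1, this.2]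
  have a2 : s2 * s2 ≤ 1 / 16 := by
    have := abs_le.1 h2
    nlinarith [this.1, this.2]
  have b1 := mul_self_nonneg s1
  have b2 := mul_self_nonneg s2
  rw [abs_le] at h0 ⊢
  constructor <;> linarith [h0.1, h0.2]

lemma FL_sq {ε : ℝ} (hε : 0 < ε) (R : Fin 3 → Fin 3 → E3 → ℝ) (c : Fin 3) (a : Fin 5) (x : E3) :
    FL ε R c a x ^ 2 ≤ 4 * (ε + ∑ i, ∑ j, |R i j x|) := by
  have h1 := KK_pos hε R x
  have key : ∀ f : ℝ, |f| ≤ 1 → (Real.sqrt (KK ε R x) * (1 + f)) ^ 2 ≤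
      4 * (ε + ∑ i, ∑ j, |R i j x|) := by
    intro f hf
    rw [mul_pow, Real.sq_sqrt h1.le]
    have h2 : (1 + f) ^ 2 ≤ 4 := by
      rw [abs_le] at hf
      nlinarith [hf.1, hf.2]
    have h3 := KK_le hε R x
    calc KK ε R x * (1 + f) ^ 2 ≤ KK ε R x * 4 := mul_le_mul_of_nonneg_left h2 h1.le
      _ ≤ _ := by linarith
  have key2 : ∀ f : ℝ, |f| ≤ 1 → (Real.sqrt (KK ε R x) * (1 + (-1) * f)) ^ 2 ≤
      4 * (ε + ∑ i, ∑ j, |R i j x|) := fun f hf => key _ (by rw [abs_mul]; simpa using hf)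
  have hs : ∀ i j, |R i j x * (4 * KK ε R x)⁻¹| ≤ 1 := fun i j => (s_le hε R i j x).trans (by norm_num)
  have hX := fun i => X_le (s_le hε R i i x) (s_le hε R i (i + 1) x) (s_le hε R i (i + 2) x)
  unfold FL GP
  split_ifs
  · exact key _ (hs _ _)
  · exact key2 _ (hs _ _)
  · exact key _ (hX _)
  · exact key2 _ (hX _)
  · exact key2 _ (hX _)

/-- **Local amplitudes.** Let `R` be a smooth symmetric field with `P div R = -b`. There are smooth
amplitudes `F c a` whose squares are at most `4 (ε + |R|)` and which give the stress `R` up to a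
multiple of the identity. -/
theorem amplitudes_loc {b : Fin 3 → K → ℂ} (h0 : ∀ i, b i 0 = 0) {R : Fin 3 → Fin 3 → E3 → ℝ}
    (hR : ∀ i j, SP (R i j)) (hRc : ∀ i j, R i j = R j i)
    (hRb : ∀ k, k ≠ 0 → ∀ i, ∑ j, ∑ m, coef k i j m * fr (R j m) k = -b i k) {ε : ℝ} (hε : 0 < ε) :
    ∃ F : Fin 3 → Fin 5 → E3 → ℝ, (∀ c a, SP (F c a)) ∧
      (∀ c a x, F c a x ^ 2 ≤ 4 * (ε + ∑ i, ∑ j, |R i j x|)) ∧
      ∀ k, ∑ c, ∑ a, fr (fun x => F c a x * F c a x) k • bt k (ec (eP c a)) (ec (eP c a)) =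
        -(fun i => b i k : C3) := by
  refine ⟨FL ε R, FL_SP hε hR, FL_sq hε R, fun k => ?_⟩
  have hGP := FL_SP hε hR
  set s : Fin 3 → Fin 3 → E3 → ℝ := fun i j x => R i j x * (4 * KK ε R x)⁻¹ with hsdef
  have hs : ∀ i j, SP (s i j) := fun i j => (hR i j).mul (inv_SP hε hR)
  set X : Fin 3 → E3 → ℝ := fun i x => s i i x +
    (-(1 / 2)) * (s i (i + 1) x * s i (i + 1) x + s i (i + 2) x * s i (i + 2) x) with hXdef
  have hX : ∀ i, SP (X i) := fun i =>
    (hs i i).add (SP.cmul (((hs _ _).mul (hs _ _)).add ((hs _ _).mul (hs _ _))) _)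
  set lam : E3 → ℝ := fun x => Real.sqrt (KK ε R x) * Real.sqrt (KK ε R x) *
    (4 + ∑ i, (1 - X i x) ^ 2) with hlam
  have hlamSP : SP lam := by
    have h1 : ∀ i, SP fun x => (1 - X i x) ^ 2 := by
      intro i
      have : (fun x => (1 - X i x) ^ 2) = fun x => (1 - X i x) * (1 - X i x) := by
        funext x; ring
      rw [this]
      exact (SP.sub (SP.const 1) (hX i)).mul (SP.sub (SP.const 1) (hX i))
    exact ((sqrtKK_SP hε hR).mul (sqrtKK_SP hε hR)).mul ((SP.const 4).add (SP.sum fun i _ => h1 i))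
  have hid : ∀ j m x, ∑ c, ∑ a, (eP c a j * eP c a m) * (FL ε R c a x * FL ε R c a x) =
      R j m x + (if j = m then lam x else 0) := by
    intro j m x
    have hK := KK_pos hε R x
    have hκ2 : Real.sqrt (KK ε R x) ^ 2 = KK ε R x := Real.sq_sqrt hK.le
    -- the fields with the values at `x`
    have h := dec_id (Real.sqrt (KK ε R x)) (fun i j _ => s i j x) (fun i _ => X i x)
      (fun i j _ => R i j x) (fun i j => by funext _; simp only [s, hRc i j]) (fun i j _ _ => by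
        simp only [s]; rw [hκ2]; field_simp) (fun i _ => by
        simp only [X, s]
        rw [hκ2]
        field_simp
        ring) j m x
    have e : ∀ c a, GP (Real.sqrt (KK ε R x)) (fun i j _ => s i j x) (fun i _ => X i x) c a x =
        FL ε R c a x := by
      intro c a
      unfold FL GP
      rfl
    simp only [e] at h
    rw [h, hlam]
    simp only [pow_two (Real.sqrt (KK ε R x))]
  have hfr : ∀ j m, ∑ c, ∑ a, ((eP c a j * eP c a m : ℝ) : ℂ) *
      fr (fun x => FL ε R c a x * FL ε R c a x) k = fr (R j m) k + (if j = m then fr lam k else 0) := by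
    intro j m
    have e1 : fr (fun x => ∑ c, ∑ a, (eP c a j * eP c a m) * (FL ε R c a x * FL ε R c a x)) k =
        ∑ c, ∑ a, ((eP c a j * eP c a m : ℝ) : ℂ) * fr (fun x => FL ε R c a x * FL ε R c a x) k := by
      rw [fr_finsum Finset.univ (fun c x => ∑ a, (eP c a j * eP c a m) * (FL ε R c a x * FL ε R c a x))
        (fun c _ => SP.sum fun a _ => SP.cmul ((hGP c a).mul (hGP c a)) _)]
      refine Finset.sum_congr rfl fun c _ => ?_
      rw [fr_finsum Finset.univ (fun a x => (eP c a j * eP c a m) * (FL ε R c a x * FL ε R c a x))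
        (fun a _ => SP.cmul ((hGP c a).mul (hGP c a)) _)]
      refine Finset.sum_congr rfl fun a _ => ?_
      rw [fr_cmul]
    rw [← e1]
    have e2 : (fun x => ∑ c, ∑ a, (eP c a j * eP c a m) * (FL ε R c a x * FL ε R c a x)) =
        fun x => R j m x + (if j = m then lam x else 0) := funext fun x => hid j m x
    rw [e2]
    by_cases hjm : j = m
    · simp only [if_pos hjm]
      rw [fr_add (hR j m) hlamSP]
    · simp only [if_neg hjm, add_zero]
  funext i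
  by_cases hk : k = 0
  · subst hk
    simp [h0, bt_freq_zero]
  have e3 : (∑ c, ∑ a, fr (fun x => FL ε R c a x * FL ε R c a x) k • bt k (ec (eP c a)) (ec (eP c a))) i =
      ∑ j, ∑ m, coef k i j m * ∑ c, ∑ a, ((eP c a j * eP c a m : ℝ) : ℂ) *
        fr (fun x => FL ε R c a x * FL ε R c a x) k := by
    simp only [Finset.sum_apply, Pi.smul_apply, smul_eq_mul, bt, ec, Finset.mul_sum]
    have hT : ∀ T : Fin 3 → Fin 5 → Fin 3 → Fin 3 → ℂ, ∑ c, ∑ a, ∑ j, ∑ m, T c a j m =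
        ∑ j, ∑ m, ∑ c, ∑ a, T c a j m := by
      intro T
      calc ∑ c, ∑ a, ∑ j, ∑ m, T c a j m = ∑ c, ∑ j, ∑ a, ∑ m, T c a j m :=
            Finset.sum_congr rfl fun c _ => Finset.sum_comm
        _ = ∑ j, ∑ c, ∑ a, ∑ m, T c a j m := Finset.sum_comm
        _ = ∑ j, ∑ c, ∑ m, ∑ a, T c a j m :=
            Finset.sum_congr rfl fun j _ => Finset.sum_congr rfl fun c _ => Finset.sum_comm
        _ = _ := Finset.sum_congr rfl fun j _ => Finset.sum_comm
    have : ∀ c : Fin 3, ∀ a : Fin 5, ∑ j, ∑ m, fr (fun x => FL ε R c a x * FL ε R c a x) k *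
        (coef k i j m * ((eP c a j : ℂ) * (eP c a m : ℂ))) =
        ∑ j, ∑ m, coef k i j m * (((eP c a j * eP c a m : ℝ) : ℂ) *
          fr (fun x => FL ε R c a x * FL ε R c a x) k) := fun c a =>
      Finset.sum_congr rfl fun j _ => Finset.sum_congr rfl fun m _ => by push_cast; ring
    simp_rw [this]
    exact hT _
  rw [e3]
  simp_rw [hfr, mul_add, Finset.sum_add_distrib]
  rw [hRb k hk i]
  have e4 : ∑ j, ∑ m, coef k i j m * (if j = m then fr lam k else 0) = (∑ j, coef k i j j) * fr lam k := by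
    rw [Finset.sum_mul]
    refine Finset.sum_congr rfl fun j _ => ?_
    simp
  rw [e4, coef_id hk, zero_mul, add_zero]
  rfl

end Pool.Agent.K1H52.L2
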