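import Pool.Agent.K1H11.NS2.Phys
import Pool.Agent.K1H11.NS2.Conv4
import Pool.Agent.K1H11.NS7.WeakDefs

/-!
# Fields which are smooth solutions for positive times, square integrable and continuous at time zero are weak
solutions
-/

open MeasureTheory Set Filter Topology
open scoped ContDiff ENNReal

namespace Pool.Agent.K1H52.L2

open Pool.Agent.H356R3.NS (AdmissiblePeriodic R3 fc)
open H459R3.NS (V K3 SP Per cube fr ee S Rap IsSol)

open Pool.Agent.K1H11.NS (TestField weakInt pairing)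

lemma weakInt_eq (ν : ℝ) (U φ : ℝ → R3 → R3) (t : ℝ) (x : R3) : weakInt ν U φ t x =
    ∑ i, (U t x i * (deriv (fun s => φ s x i) t
      + ν * ∑ j, Pool.Agent.H356R3.NS.pd j (Pool.Agent.H356R3.NS.pd j fun y => φ t y i) x)
    + ∑ j, U t x i * U t x j * Pool.Agent.H356R3.NS.pd j (fun y => φ t y i) x) := by
  unfold weakInt
  rw [Finset.sum_add_distrib]

section glob

variable {f : ℝ → V → ℝ} (hf : ContDiff ℝ ∞ (fun z : ℝ × V => f z.1 z.2))

include hf in
lemma hasDerivAt_t (t : ℝ) (x : V) :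
    HasDerivAt (fun s => f s x) (fderiv ℝ (fun z : ℝ × V => f z.1 z.2) (t, x) (1, 0)) t := by
  have h1 : DifferentiableAt ℝ (fun z : ℝ × V => f z.1 z.2) (t, x) :=
    (hf.differentiable (by norm_cast)) _
  have h2 : HasDerivAt (fun s : ℝ => ((s, x) : ℝ × V)) (1, 0) t :=
    (hasDerivAt_id t).prodMk (hasDerivAt_const t x)
  exact h1.hasFDerivAt.comp_hasDerivAt t h2

include hf in
lemma pd_t (j : Fin 3) (t : ℝ) (x : V) :
    H459R3.NS.pd j (f t) x = fderiv ℝ (fun z : ℝ × V => f z.1 z.2) (t, x) (0, Pi.single j 1) := by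
  have h1 : HasFDerivAt (fun z : ℝ × V => f z.1 z.2) (fderiv ℝ (fun z : ℝ × V => f z.1 z.2) (t, x)) (t, x) :=
    ((hf.differentiable (by norm_cast)) _).hasFDerivAt
  have h2 : HasFDerivAt (fun y : V => ((t, y) : ℝ × V)) (ContinuousLinearMap.inr ℝ ℝ V) x :=
    hasFDerivAt_prodMk_right t x
  have h3 : HasFDerivAt (fun y : V => f t y)
      ((fderiv ℝ (fun z : ℝ × V => f z.1 z.2) (t, x)).comp (ContinuousLinearMap.inr ℝ ℝ V)) x :=
    HasFDerivAt.comp (g := fun z : ℝ × V => f z.1 z.2) x h1 h2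
  unfold H459R3.NS.pd
  have h4 : fderiv ℝ (f t) x = _ := h3.fderiv
  rw [h4]
  simp

include hf in
lemma smooth_pd (j : Fin 3) : ContDiff ℝ ∞ (fun z : ℝ × V => H459R3.NS.pd j (f z.1) z.2) := by
  have h1 : ContDiff ℝ ∞ (fderiv ℝ (fun z : ℝ × V => f z.1 z.2)) := hf.fderiv_right (by norm_cast)
  have h2 : ContDiff ℝ ∞ (fun z : ℝ × V => fderiv ℝ (fun z : ℝ × V => f z.1 z.2) z (0, Pi.single j 1)) :=
    h1.clm_apply contDiff_const
  refine (funext fun z => ?_ : (fun z : ℝ × V => H459R3.NS.pd j (f z.1) z.2) = _) ▸ h2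
  exact pd_t hf j z.1 z.2

include hf in
lemma smooth_dt : ContDiff ℝ ∞ (fun z : ℝ × V => deriv (fun s => f s z.2) z.1) := by
  have h1 : ContDiff ℝ ∞ (fderiv ℝ (fun z : ℝ × V => f z.1 z.2)) := hf.fderiv_right (by norm_cast)
  have h2 : ContDiff ℝ ∞ (fun z : ℝ × V => fderiv ℝ (fun z : ℝ × V => f z.1 z.2) z (1, 0)) :=
    h1.clm_apply contDiff_const
  refine (funext fun z => ?_ : (fun z : ℝ × V => deriv (fun s => f s z.2) z.1) = _) ▸ h2
  exact (hasDerivAt_t hf z.1 z.2).deriv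

include hf in
lemma smooth_slice (t : ℝ) : ContDiff ℝ ∞ (f t) :=
  hf.comp (contDiff_const.prodMk contDiff_id : ContDiff ℝ ∞ (fun x : V => ((t, x) : ℝ × V)))

end glob

/-- `|k|²` -/
noncomputable def sk (k : K3) : ℝ := ∑ i, (k i : ℝ) ^ 2

lemma sk_nonneg (k : K3) : 0 ≤ sk k := Finset.sum_nonneg fun _ _ => sq_nonneg _

/-- `f - Δf / (4π²)` -/
noncomputable def J (f : ℝ → V → ℝ) (t : ℝ) (x : V) : ℝ :=
  f t x - (1 / (4 * Real.pi ^ 2)) * ∑ j, H459R3.NS.pd j (H459R3.NS.pd j (f t)) x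

lemma J_smooth {f : ℝ → V → ℝ} (hf : ContDiff ℝ ∞ (fun z : ℝ × V => f z.1 z.2)) :
    ContDiff ℝ ∞ (fun z : ℝ × V => J f z.1 z.2) := by
  unfold J
  refine hf.sub (contDiff_const.mul (ContDiff.sum fun j _ => ?_))
  exact smooth_pd (f := fun t x => H459R3.NS.pd j (f t) x) (smooth_pd hf j) j

lemma J_per {f : ℝ → V → ℝ} (hp : ∀ t, Per (f t)) (t : ℝ) : Per (J f t) := by
  intro i x
  unfold J
  rw [hp t i x]
  congr 2
  refine Finset.sum_congr rfl fun j _ => ?_
  rw [((hp t).pd j).pd j i x]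

lemma SP_slice {f : ℝ → V → ℝ} (hf : ContDiff ℝ ∞ (fun z : ℝ × V => f z.1 z.2)) (hp : ∀ t, Per (f t)) (t : ℝ) :
    SP (f t) := ⟨smooth_slice hf t, hp t⟩

lemma fr_lap {g : V → ℝ} (hg : SP g) (k : K3) :
    fr (fun x => g x - (1 / (4 * Real.pi ^ 2)) * ∑ j, H459R3.NS.pd j (H459R3.NS.pd j g) x) k
      = ((1 + sk k : ℝ) : ℂ) * fr g k := by
  have hpi : (Real.pi : ℂ) ≠ 0 := by exact_mod_cast Real.pi_pos.ne'
  have h1 : ∀ j, fr (H459R3.NS.pd j (H459R3.NS.pd j g)) k = -(4 * Real.pi ^ 2 * (k j : ℂ) ^ 2) * fr g k := by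
    intro j
    rw [H459R3.NS.fr_pd (hg.pd j) j, H459R3.NS.fr_pd hg j]
    unfold H459R3.NS.D
    linear_combination (4 * (Real.pi : ℂ) ^ 2 * (k j : ℂ) ^ 2 * fr g k) * Complex.I_sq
  have hc : ∀ j, Continuous (fun x => ee (-k) x * ((H459R3.NS.pd j (H459R3.NS.pd j g) x : ℝ) : ℂ)) := fun j =>
    (H459R3.NS.ee_continuous _).mul (H459R3.NS.contDiff_ofReal ((hg.pd j).pd j).smooth).continuous
  have hc0 : Continuous (fun x => ee (-k) x * ((g x : ℝ) : ℂ)) :=
    (H459R3.NS.ee_continuous _).mul (H459R3.NS.contDiff_ofReal hg.smooth).continuous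
  have e : fr (fun x => g x - (1 / (4 * Real.pi ^ 2)) * ∑ j, H459R3.NS.pd j (H459R3.NS.pd j g) x) k
      = fr g k - (1 / (4 * Real.pi ^ 2)) * ∑ j, fr (H459R3.NS.pd j (H459R3.NS.pd j g)) k := by
    unfold fr H459R3.NS.fc
    rw [← integral_finsetSum _ fun j _ => H459R3.NS.integrableOn_cube (hc j), ← integral_const_mul,
      ← integral_sub (H459R3.NS.integrableOn_cube hc0)
        ((H459R3.NS.integrableOn_cube (continuous_finsetSum _ fun j _ => hc j)).const_mul _)]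
    congr 1
    funext x
    push_cast
    rw [← Finset.mul_sum]
    ring
  rw [e]
  simp_rw [h1]
  rw [← Finset.sum_mul]
  unfold sk
  push_cast
  rw [Finset.sum_neg_distrib, ← Finset.mul_sum]
  field_simp
  ring

lemma unif_bound (L : ℕ) (T : ℝ) : ∀ {f : ℝ → V → ℝ}, ContDiff ℝ ∞ (fun z : ℝ × V => f z.1 z.2) →
    (∀ t, Per (f t)) → ∃ C : ℝ, 0 ≤ C ∧ ∀ t ∈ Icc (0 : ℝ) T, ∀ k, (1 + sk k) ^ L * ‖fr (f t) k‖ ≤ C := by
  induction L with
  | zero =>
    intro f hf hp
    obtain ⟨C, hC⟩ := (isCompact_Icc (a := (0 : ℝ)) (b := T)).prod (isCompact_Icc (a := (0 : V)) (b := 1))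
      |>.exists_bound_of_continuousOn hf.continuous.continuousOn
    refine ⟨max C 0, le_max_right _ _, fun t ht k => ?_⟩
    rw [pow_zero, one_mul]
    unfold fr H459R3.NS.fc
    have h1 : ∀ x ∈ cube, ‖ee (-k) x * ((f t x : ℝ) : ℂ)‖ ≤ max C 0 := by
      intro x hx
      rw [norm_mul, H459R3.NS.norm_ee, one_mul, Complex.norm_real]
      exact (hC (t, x) ⟨ht, hx⟩).trans (le_max_left _ _)
    have h2 := norm_setIntegral_le_of_norm_le_const (μ := volume) (s := cube)
      (by rw [H459R3.NS.volume_cube]; exact ENNReal.one_lt_top) h1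
    have h3 : volume.real (cube : Set V) = 1 := by
      rw [Measure.real, H459R3.NS.volume_cube, ENNReal.toReal_one]
    rwa [h3, mul_one] at h2
  | succ L ih =>
    intro f hf hp
    obtain ⟨C, hC0, hC⟩ := ih (J_smooth hf) (J_per hp)
    refine ⟨C, hC0, fun t ht k => ?_⟩
    have h := hC t ht k
    have e : fr (J f t) k = ((1 + sk k : ℝ) : ℂ) * fr (f t) k := fr_lap (SP_slice hf hp t) k
    rw [e, norm_mul, Complex.norm_real, Real.norm_of_nonneg (by have := sk_nonneg k; positivity)] at h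
    calc _ = (1 + sk k) ^ L * ((1 + sk k) * ‖fr (f t) k‖) := by ring
      _ ≤ C := h

/-- Parseval. -/
lemma parseval {f g : V → ℝ} (hf : SP f) (hg : SP g) :
    HasSum (fun k => fr f k * star (fr g k)) ((∫ x in cube, f x * g x : ℝ) : ℂ) := by
  have h := H459R3.NS.integral_S_mul (H459R3.NS.rap_fr hf).summable
    (H459R3.NS.contDiff_ofReal hg.smooth).continuous
  have e1 : ∀ k, ∫ x in cube, ee k x * ((g x : ℝ) : ℂ) = star (fr g k) := by
    intro k
    unfold fr H459R3.NS.fc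
    have : star (∫ x in cube, ee (-k) x * ((g x : ℝ) : ℂ)) = ∫ x in cube, (starRingEnd ℂ) (ee (-k) x * ((g x : ℝ) : ℂ)) :=
      (integral_conj).symm
    rw [this]
    congr 1
    funext x
    rw [map_mul, Complex.conj_ofReal, H459R3.NS.ee_neg, Complex.conj_conj]
  simp_rw [e1] at h
  have e2 : ∫ x in cube, S (fr f) x * ((g x : ℝ) : ℂ) = ((∫ x in cube, f x * g x : ℝ) : ℂ) := by
    rw [← integral_complex_ofReal]
    congr 1
    funext x
    rw [H459R3.NS.S_fr hf]
    push_cast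
    rfl
  rwa [e2] at h

lemma fr_cont {f : ℝ → V → ℝ} (hf : Continuous (fun z : ℝ × V => f z.1 z.2)) (k : K3) :
    Continuous fun t => fr (f t) k := by
  unfold fr H459R3.NS.fc
  refine continuous_parametric_integral_of_continuous (f := fun t x => ee (-k) x * ((f t x : ℝ) : ℂ)) ?_
    isCompact_Icc
  exact ((H459R3.NS.ee_continuous _).comp continuous_snd).mul (Complex.continuous_ofReal.comp hf)

lemma space_id {v ψ g : Fin 3 → V → ℝ} {q : V → ℝ} (hv : ∀ i, SP (v i)) (hψ : ∀ i, SP (ψ i))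
    (hg : ∀ i, Continuous (g i)) (hq : SP q) (hdv : ∀ x, ∑ i, H459R3.NS.pd i (v i) x = 0)
    (hdψ : ∀ x, ∑ i, H459R3.NS.pd i (ψ i) x = 0) (ν : ℝ) :
    ∫ x in cube, ∑ i, ((ν * H459R3.NS.lap (v i) x - H459R3.NS.conv v i x - H459R3.NS.pd i q x) * ψ i x
        + v i x * g i x)
      = ∫ x in cube, ∑ i, (v i x * (g i x + ν * ∑ j, H459R3.NS.pd j (H459R3.NS.pd j (ψ i)) x)
        + ∑ j, v i x * v j x * H459R3.NS.pd j (ψ i) x) := by
  have a1 : ∀ i, ∫ x in cube, H459R3.NS.lap (v i) x * ψ i x = ∫ x in cube, H459R3.NS.lap (ψ i) x * v i x := by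
    intro i
    rw [H459R3.NS.int_lap_mul (hv i) (hψ i), H459R3.NS.int_lap_mul (hψ i) (hv i)]
    congr 1
    refine Finset.sum_congr rfl fun j _ => ?_
    congr 1
    funext x
    ring
  have a2 := H459R3.NS.int_press hψ hdψ hq
  have a3 : ∀ i, ∑ j, ∫ x in cube, v j x * H459R3.NS.pd j (fun y => v i y * ψ i y) x = 0 := fun i =>
    H459R3.NS.int_press hv hdv ((hv i).mul (hψ i))
  have hspL : ∀ i, SP fun x => H459R3.NS.lap (v i) x * ψ i x := fun i => (hv i).lap.mul (hψ i)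
  have hspR : ∀ i, SP fun x => H459R3.NS.lap (ψ i) x * v i x := fun i => (hψ i).lap.mul (hv i)
  have hspT : ∀ i j, SP fun x => v j x * H459R3.NS.pd j (fun y => v i y * ψ i y) x := fun i j =>
    (hv j).mul (((hv i).mul (hψ i)).pd j)
  have hspP : ∀ i, SP fun x => ψ i x * H459R3.NS.pd i q x := fun i => (hψ i).mul (hq.pd i)
  have hcR : Continuous fun x => ∑ i, (v i x * (g i x + ν * ∑ j, H459R3.NS.pd j (H459R3.NS.pd j (ψ i)) x)
        + ∑ j, v i x * v j x * H459R3.NS.pd j (ψ i) x) := by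
    refine continuous_finsetSum _ fun i _ => ?_
    refine ((hv i).cont.mul ((hg i).add (continuous_const.mul
      (continuous_finsetSum _ fun j _ => (((hψ i).pd j).pd j).cont)))).add
      (continuous_finsetSum _ fun j _ => ?_)
    exact (((hv i).cont.mul (hv j).cont).mul ((hψ i).pd j).cont)
  have e : ∀ x, ∑ i, ((ν * H459R3.NS.lap (v i) x - H459R3.NS.conv v i x - H459R3.NS.pd i q x) * ψ i x
        + v i x * g i x) = ∑ i, (v i x * (g i x + ν * ∑ j, H459R3.NS.pd j (H459R3.NS.pd j (ψ i)) x)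
        + ∑ j, v i x * v j x * H459R3.NS.pd j (ψ i) x)
        + ∑ i, (ν * (H459R3.NS.lap (v i) x * ψ i x - H459R3.NS.lap (ψ i) x * v i x)
          - ∑ j, v j x * H459R3.NS.pd j (fun y => v i y * ψ i y) x - ψ i x * H459R3.NS.pd i q x) := by
    intro x
    rw [← Finset.sum_add_distrib]
    refine Finset.sum_congr rfl fun i _ => ?_
    have e1 : ∑ j, v j x * H459R3.NS.pd j (fun y => v i y * ψ i y) x
        = ∑ j, v i x * v j x * H459R3.NS.pd j (ψ i) x + H459R3.NS.conv v i x * ψ i x := by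
      unfold H459R3.NS.conv
      rw [Finset.sum_mul, ← Finset.sum_add_distrib]
      refine Finset.sum_congr rfl fun j _ => ?_
      rw [H459R3.NS.pd_mul (hv i) (hψ i)]
      ring
    rw [e1]
    have e2 : H459R3.NS.lap (ψ i) x = ∑ j, H459R3.NS.pd j (H459R3.NS.pd j (ψ i)) x := rfl
    rw [e2]
    ring
  have hiE : ∀ i, IntegrableOn (fun x => ν * (H459R3.NS.lap (v i) x * ψ i x - H459R3.NS.lap (ψ i) x * v i x)
          - ∑ j, v j x * H459R3.NS.pd j (fun y => v i y * ψ i y) x - ψ i x * H459R3.NS.pd i q x) cube := fun i =>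
    ((((hspL i).int.sub (hspR i).int).const_mul ν).sub (integrable_finsetSum _ fun j _ => (hspT i j).int)).sub
      (hspP i).int
  simp_rw [e]
  rw [integral_add (H459R3.NS.integrableOn_cube hcR) (integrable_finsetSum _ fun i _ => hiE i)]
  have e3 : ∫ x in cube, ∑ i, (ν * (H459R3.NS.lap (v i) x * ψ i x - H459R3.NS.lap (ψ i) x * v i x)
          - ∑ j, v j x * H459R3.NS.pd j (fun y => v i y * ψ i y) x - ψ i x * H459R3.NS.pd i q x) = 0 := by
    rw [integral_finsetSum _ fun i _ => hiE i]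
    have : ∀ i, ∫ x in cube, (ν * (H459R3.NS.lap (v i) x * ψ i x - H459R3.NS.lap (ψ i) x * v i x)
          - ∑ j, v j x * H459R3.NS.pd j (fun y => v i y * ψ i y) x - ψ i x * H459R3.NS.pd i q x)
          = -∫ x in cube, ψ i x * H459R3.NS.pd i q x := by
      intro i
      have i1 : IntegrableOn (fun x => ν * (H459R3.NS.lap (v i) x * ψ i x - H459R3.NS.lap (ψ i) x * v i x)) cube :=
        ((hspL i).int.sub (hspR i).int).const_mul ν
      have i2 : IntegrableOn (fun x => ∑ j, v j x * H459R3.NS.pd j (fun y => v i y * ψ i y) x) cube :=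
        integrable_finsetSum _ fun j _ => (hspT i j).int
      have i3 : IntegrableOn (fun x => ν * (H459R3.NS.lap (v i) x * ψ i x - H459R3.NS.lap (ψ i) x * v i x)
          - ∑ j, v j x * H459R3.NS.pd j (fun y => v i y * ψ i y) x) cube := i1.sub i2
      rw [integral_sub i3 (hspP i).int, integral_sub i1 i2, integral_const_mul,
        integral_sub (hspL i).int (hspR i).int, a1, sub_self, mul_zero,
        integral_finsetSum _ fun j _ => (hspT i j).int, a3]
      ring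
    simp_rw [this]
    rw [Finset.sum_neg_distrib, a2, neg_zero]
  rw [e3, add_zero]

section main

variable {ν : ℝ} {U : ℝ → R3 → R3}

/-- The field is smooth for positive times. -/
lemma U_cont (hU : ∀ t₀ : ℝ, 0 < t₀ → ∃ p : ℝ → R3 → ℝ, AdmissiblePeriodic ν (U t₀) (fun t => U (t₀ + t)) p) :
    ContinuousOn (fun z : ℝ × R3 => U z.1 z.2) (Ioi 0 ×ˢ univ) := by
  intro z hz
  have hz1 : 0 < z.1 := hz.1
  obtain ⟨p, hp⟩ := hU (z.1 / 2) (half_pos hz1)
  have h1 : ContinuousAt (fun y : ℝ × R3 => U (z.1 / 2 + y.1) y.2) (z.1 / 2, z.2) := by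
    refine (hp.smooth_u.continuousOn).continuousAt ?_
    exact prod_mem_nhds (Ici_mem_nhds (half_pos hz1)) Filter.univ_mem
  have h2 : ContinuousAt (fun y : ℝ × R3 => ((y.1 - z.1 / 2, y.2) : ℝ × R3)) z := by fun_prop
  have h3 : ContinuousAt ((fun y : ℝ × R3 => U (z.1 / 2 + y.1) y.2)
      ∘ (fun y : ℝ × R3 => ((y.1 - z.1 / 2, y.2) : ℝ × R3))) z := by
    refine ContinuousAt.comp ?_ h2
    have : (z.1 - z.1 / 2, z.2) = (z.1 / 2, z.2) := by
      congr 1; ring
    rw [this]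
    exact h1
  have e : ((fun y : ℝ × R3 => U (z.1 / 2 + y.1) y.2)
      ∘ (fun y : ℝ × R3 => ((y.1 - z.1 / 2, y.2) : ℝ × R3))) = fun z : ℝ × R3 => U z.1 z.2 := by
    funext y
    simp only [Function.comp_apply]
    congr 1
    ring
  rw [e] at h3
  exact h3.continuousWithinAt

variable {φ : ℝ → R3 → R3} (hφ : TestField φ)

include hφ in
lemma tf_comp (i : Fin 3) : ContDiff ℝ ∞ (fun z : ℝ × V => φ z.1 z.2 i) :=
  (contDiff_pi.1 hφ.smooth) i

include hφ in
lemma tf_sp (t : ℝ) (i : Fin 3) : SP (fun x => φ t x i) :=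
  ⟨smooth_slice (f := fun t x => φ t x i) (tf_comp hφ i) t, fun j x => by simp only [hφ.periodic t x j]⟩

include hφ in
lemma G_deriv (hU : ∀ t₀ : ℝ, 0 < t₀ → ∃ p : ℝ → R3 → ℝ, AdmissiblePeriodic ν (U t₀) (fun t => U (t₀ + t)) p)
    {t : ℝ} (ht : 0 < t) :
    HasDerivAt (fun t => ∫ x in cube, ∑ i, U t x i * φ t x i) (∫ x in cube, weakInt ν U φ t x) t := by
  obtain ⟨p, hp⟩ := hU (t / 2) (half_pos ht)
  have hsol : IsSol ν t (fun s => U (t / 2 + s)) p := K1H11.NS.adm_isSol hp t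
  have hs : t / 2 ∈ Ioo 0 t := ⟨half_pos ht, half_lt_self ht⟩
  have hsI : t / 2 ∈ Ico 0 t := ⟨hs.1.le, hs.2⟩
  have htt : t / 2 + t / 2 = t := by ring
  have hψ : ∀ i, ContDiff ℝ ∞ (fun z : ℝ × V => φ (t / 2 + z.1) z.2 i) := by
    intro i
    exact (tf_comp hφ i).comp ((contDiff_const.add contDiff_fst).prodMk contDiff_snd :
      ContDiff ℝ ∞ (fun z : ℝ × V => ((t / 2 + z.1, z.2) : ℝ × V)))
  have hF : ContDiffOn ℝ 1 (fun z : ℝ × V => ∑ i, U (t / 2 + z.1) z.2 i * φ (t / 2 + z.1) z.2 i)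
      (Ioo 0 t ×ˢ univ) := by
    refine ContDiffOn.sum fun i _ => ?_
    exact (H459R3.NS.mono_Ioo (f := fun s y => U (t / 2 + s) y i) (hsol.smooth_c i) (by norm_cast)).mul
      (((hψ i).of_le (by norm_cast)).contDiffOn)
  have h1 := H459R3.NS.hasDerivAt_int (F := fun s x => ∑ i, U (t / 2 + s) x i * φ (t / 2 + s) x i) hF hs
  have h2 : HasDerivAt (fun s => ∫ x in cube, ∑ i, U (t / 2 + s) x i * φ (t / 2 + s) x i)
      (∫ x in cube, weakInt ν U φ t x) (t - t / 2) := by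
    rw [show t - t / 2 = t / 2 by ring]
    refine h1.congr_deriv ?_
    have e := space_id (v := fun i x => U (t / 2 + t / 2) x i) (ψ := fun i x => φ t x i)
      (g := fun i x => deriv (fun s => φ s x i) t) (q := p (t / 2)) (fun i => hsol.sp hsI i)
      (fun i => tf_sp hφ t i) (fun i => by
        have := (smooth_dt (f := fun s y => φ s y i) (tf_comp hφ i)).continuous
        exact this.comp (by fun_prop : Continuous fun x : V => ((t, x) : ℝ × V))) (hsol.sp_p hsI)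
      (hsol.divfree (t / 2) hsI) (hφ.divFree t) ν
    rw [htt] at e
    simp_rw [weakInt_eq]
    refine Eq.trans ?_ e
    congr 1
    funext x
    have d1 : ∀ i, HasDerivAt (fun s => U (t / 2 + s) x i * φ (t / 2 + s) x i)
        (H459R3.NS.dt (fun s y => U (t / 2 + s) y i) (t / 2) x * φ t x i
          + U t x i * deriv (fun s => φ s x i) t) (t / 2) := by
      intro i
      have c1 : HasDerivAt (fun s => U (t / 2 + s) x i) (H459R3.NS.dt (fun s y => U (t / 2 + s) y i) (t / 2) x)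
          (t / 2) := by
        have c0 : ContDiffOn ℝ 1 (fun z : ℝ × V => U (t / 2 + z.1) z.2 i) (Ioo 0 t ×ˢ univ) :=
          H459R3.NS.mono_Ioo (f := fun s y => U (t / 2 + s) y i) (hsol.smooth_c i) (by norm_cast)
        have := H459R3.NS.hasDerivAt_slice (F := fun s y => U (t / 2 + s) y i) c0 hs x
        exact this.congr_deriv this.deriv.symm
      have c2 : HasDerivAt (fun s => φ (t / 2 + s) x i) (deriv (fun s => φ s x i) t) (t / 2) := by
        have c3 := hasDerivAt_t (f := fun s y => φ s y i) (tf_comp hφ i) t x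
        have c4 : HasDerivAt (fun s => φ s x i) (deriv (fun s => φ s x i) t) (t / 2 + t / 2) := by
          rw [htt]; exact c3.congr_deriv c3.deriv.symm
        exact c4.comp_const_add (t / 2) (t / 2)
      have := c1.mul c2
      rw [htt] at this
      exact this
    rw [(HasDerivAt.fun_sum fun i _ => d1 i).deriv]
    refine Finset.sum_congr rfl fun i _ => ?_
    rw [hsol.dt_eq hs i x, htt]
  have h3 := h2.comp_sub_const t (t / 2)
  refine h3.congr_of_eventuallyEq ?_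
  refine Filter.Eventually.of_forall fun s => ?_
  simp only [add_sub_cancel]

/-- the integrand is zero for large times -/
lemma weakInt_late {T : ℝ} (hT : ∀ t, T ≤ t → ∀ x, φ t x = 0) {t : ℝ} (ht : T < t) (x : R3) : weakInt ν U φ t x = 0 := by
  have h0 : ∀ i, (fun y => φ t y i) = fun _ => (0 : ℝ) := by
    intro i; funext y; rw [hT t ht.le y]; rfl
  have hpd0 : ∀ j, Pool.Agent.H356R3.NS.pd j (fun _ => (0 : ℝ)) = fun _ => 0 := by
    intro j; funext y; unfold Pool.Agent.H356R3.NS.pd; simp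
  have hd : ∀ i, deriv (fun s => φ s x i) t = 0 := by
    intro i
    have : (fun s => φ s x i) =ᶠ[𝓝 t] fun _ => (0 : ℝ) := by
      filter_upwards [Ioi_mem_nhds ht] with s hs
      rw [hT s (le_of_lt hs) x]; rfl
    rw [this.deriv_eq]
    simp
  rw [weakInt_eq]
  refine Finset.sum_eq_zero fun i _ => ?_
  simp only [h0 i, hpd0, hd i]
  simp

include hφ in
lemma weakInt_cont (hU : ContinuousOn (fun z : ℝ × R3 => U z.1 z.2) (Ioi 0 ×ˢ univ)) :
    ContinuousOn (fun z : ℝ × R3 => weakInt ν U φ z.1 z.2) (Ioi 0 ×ˢ univ) := by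
  have hUi : ∀ i, ContinuousOn (fun z : ℝ × R3 => U z.1 z.2 i) (Ioi 0 ×ˢ univ) := fun i =>
    (continuousOn_pi.1 hU) i
  have h1 : ∀ i, Continuous (fun z : ℝ × V => deriv (fun s => φ s z.2 i) z.1) := fun i =>
    (smooth_dt (f := fun t x => φ t x i) (tf_comp hφ i)).continuous
  have h2 : ∀ i j, Continuous (fun z : ℝ × V => Pool.Agent.H356R3.NS.pd j (fun y => φ z.1 y i) z.2) := fun i j =>
    (smooth_pd (f := fun t x => φ t x i) (tf_comp hφ i) j).continuous
  have h3 : ∀ i j, Continuous (fun z : ℝ × V => Pool.Agent.H356R3.NS.pd j (Pool.Agent.H356R3.NS.pd j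
      fun y => φ z.1 y i) z.2) := fun i j =>
    (smooth_pd (f := fun t x => H459R3.NS.pd j (fun y => φ t y i) x)
      (smooth_pd (f := fun t x => φ t x i) (tf_comp hφ i) j) j).continuous
  simp_rw [weakInt_eq]
  refine continuousOn_finsetSum _ fun i _ => ?_
  refine ((hUi i).mul ((h1 i).continuousOn.add (continuousOn_const.mul
    (continuousOn_finsetSum _ fun j _ => (h3 i j).continuousOn)))).add
    (continuousOn_finsetSum _ fun j _ => ?_)
  exact ((hUi i).mul (hUi j)).mul (h2 i j).continuousOn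

include hφ in
lemma weakInt_bound (U : ℝ → R3 → R3) (ν T : ℝ) : ∃ C : ℝ, 0 ≤ C ∧ ∀ t ∈ Icc (0 : ℝ) T, ∀ x ∈ (Icc 0 1 : Set R3),
    |weakInt ν U φ t x| ≤ C * (1 + ∑ i, U t x i ^ 2) := by
  have h1 : ∀ i, Continuous (fun z : ℝ × V => deriv (fun s => φ s z.2 i) z.1) := fun i =>
    (smooth_dt (f := fun t x => φ t x i) (tf_comp hφ i)).continuous
  have h2 : ∀ i j, Continuous (fun z : ℝ × V => Pool.Agent.H356R3.NS.pd j (fun y => φ z.1 y i) z.2) := fun i j =>
    (smooth_pd (f := fun t x => φ t x i) (tf_comp hφ i) j).continuous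
  have h3 : ∀ i j, Continuous (fun z : ℝ × V => Pool.Agent.H356R3.NS.pd j (Pool.Agent.H356R3.NS.pd j
      fun y => φ z.1 y i) z.2) := fun i j =>
    (smooth_pd (f := fun t x => H459R3.NS.pd j (fun y => φ t y i) x)
      (smooth_pd (f := fun t x => φ t x i) (tf_comp hφ i) j) j).continuous
  have hK : IsCompact (Icc (0 : ℝ) T ×ˢ (Icc 0 1 : Set R3)) := isCompact_Icc.prod isCompact_Icc
  have h4 : ∀ i, Continuous (fun z : ℝ × V => deriv (fun s => φ s z.2 i) z.1
      + ν * ∑ j, Pool.Agent.H356R3.NS.pd j (Pool.Agent.H356R3.NS.pd j fun y => φ z.1 y i) z.2) := fun i =>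
    (h1 i).add (continuous_const.mul (continuous_finsetSum _ fun j _ => h3 i j))
  choose A hA using fun i => hK.exists_bound_of_continuousOn (h4 i).continuousOn
  choose B hB using fun i j => hK.exists_bound_of_continuousOn (h2 i j).continuousOn
  refine ⟨∑ i, (|A i| + ∑ j, |B i j|), Finset.sum_nonneg fun i _ => add_nonneg (abs_nonneg _)
    (Finset.sum_nonneg fun j _ => abs_nonneg _), fun t ht x hx => ?_⟩
  have hU2 : ∀ i, U t x i ^ 2 ≤ ∑ i, U t x i ^ 2 := fun i =>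
    Finset.single_le_sum (f := fun i => U t x i ^ 2) (fun j _ => sq_nonneg _) (Finset.mem_univ i)
  have hS : 0 ≤ ∑ i, U t x i ^ 2 := Finset.sum_nonneg fun j _ => sq_nonneg _
  have hU1 : ∀ i, |U t x i| ≤ 1 + ∑ i, U t x i ^ 2 := by
    intro i
    have := hU2 i
    have h5 : |U t x i| ≤ 1 + U t x i ^ 2 := by
      rw [← sq_abs]; nlinarith [sq_nonneg (|U t x i| - 1), abs_nonneg (U t x i)]
    linarith
  have hU3 : ∀ i j, |U t x i * U t x j| ≤ 1 + ∑ i, U t x i ^ 2 := by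
    intro i j
    have a := hU2 i
    have b := hU2 j
    rw [abs_mul]
    have : |U t x i| * |U t x j| ≤ (U t x i ^ 2 + U t x j ^ 2) / 2 := by
      rw [← sq_abs (U t x i), ← sq_abs (U t x j)]
      nlinarith [sq_nonneg (|U t x i| - |U t x j|)]
    linarith
  rw [weakInt_eq, Finset.sum_mul]
  refine (Finset.abs_sum_le_sum_abs _ _).trans (Finset.sum_le_sum fun i _ => ?_)
  rw [add_mul, Finset.sum_mul]
  refine (abs_add_le _ _).trans (add_le_add ?_ ((Finset.abs_sum_le_sum_abs _ _).trans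
    (Finset.sum_le_sum fun j _ => ?_)))
  · rw [abs_mul, mul_comm]
    refine mul_le_mul ((hA i (t, x) ⟨ht, hx⟩).trans (le_abs_self _)) (hU1 i) (abs_nonneg _) (abs_nonneg _)
  · rw [abs_mul, mul_comm]
    refine mul_le_mul ((hB i j (t, x) ⟨ht, hx⟩).trans (le_abs_self _)) (hU3 i j) (abs_nonneg _) (abs_nonneg _)

include hφ in
lemma weakInt_integrable (hU : ContinuousOn (fun z : ℝ × R3 => U z.1 z.2) (Ioi 0 ×ˢ univ))
    (hsq : ∀ T : ℝ, IntegrableOn (fun z : ℝ × R3 => ∑ i, U z.1 z.2 i ^ 2) (Ioc 0 T ×ˢ Icc 0 1)) (ν : ℝ) :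
    IntegrableOn (fun z : ℝ × R3 => weakInt ν U φ z.1 z.2) (Ioi 0 ×ˢ Icc 0 1) := by
  obtain ⟨T, hT⟩ := hφ.support
  obtain ⟨C, hC0, hC⟩ := weakInt_bound hφ U ν (max T 1)
  have hT1 : (0 : ℝ) ≤ max T 1 := zero_le_one.trans (le_max_right _ _)
  have hm1 : MeasurableSet (Ioc (0 : ℝ) (max T 1) ×ˢ (Icc 0 1 : Set R3)) := measurableSet_Ioc.prod measurableSet_Icc
  have hm2 : MeasurableSet (Ioi (max T 1) ×ˢ (Icc 0 1 : Set R3)) := measurableSet_Ioi.prod measurableSet_Icc
  have e : Ioi (0 : ℝ) ×ˢ (Icc 0 1 : Set R3) = (Ioc 0 (max T 1) ×ˢ Icc 0 1) ∪ (Ioi (max T 1) ×ˢ Icc 0 1) := by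
    rw [← union_prod, Ioc_union_Ioi_eq_Ioi hT1]
  rw [e]
  refine IntegrableOn.union ?_ ?_
  · have hfin : volume (Ioc (0 : ℝ) (max T 1) ×ˢ (Icc 0 1 : Set R3)) ≠ ⊤ := by
      rw [Measure.volume_eq_prod, Measure.prod_prod]
      exact ENNReal.mul_ne_top (measure_Ioc_lt_top).ne (isCompact_Icc.measure_lt_top).ne
    have hg : IntegrableOn (fun z : ℝ × R3 => C * (1 + ∑ i, U z.1 z.2 i ^ 2)) (Ioc 0 (max T 1) ×ˢ Icc 0 1) :=
      ((integrableOn_const hfin).add (hsq _)).const_mul C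
    refine Integrable.mono' hg ?_ ?_
    · exact ((weakInt_cont hφ hU).mono (prod_mono Ioc_subset_Ioi_self (subset_univ _))).aestronglyMeasurable hm1
    · refine (ae_restrict_iff' hm1).2 (Filter.Eventually.of_forall fun z hz => ?_)
      rw [Real.norm_eq_abs]
      exact hC z.1 ⟨hz.1.1.le, hz.1.2⟩ z.2 hz.2
  · have h0 : IntegrableOn (fun _ : ℝ × R3 => (0 : ℝ)) (Ioi (max T 1) ×ˢ Icc 0 1) := integrableOn_zero
    exact h0.congr_fun (fun z hz => (weakInt_late hT ((le_max_left T 1).trans_lt hz.1) z.2).symm) hm2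

end main

end Pool.Agent.K1H52.L2
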